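import Pool.Agent.helper7.EP.SpecA

set_option autoImplicit false

namespace Pool.Agent.EP

open Finset

theorem FRO_sq (f : KK) (N : ℤ) :
    (f * f).coeff N = if (2 : ℤ) ∣ N then f.coeff (N / 2) else 0 := by
  have hsq : ∀ c : ZMod 2, c * c = c := by decide
  have hch : ∀ c : ZMod 2, c + c = 0 := by decide
  rw [HahnSeries.coeff_mul]
  set s := Finset.antidiagonal f.isPWO_support f.isPWO_support N with hs
  have hmem : ∀ p : ℤ × ℤ, p ∈ s ↔ f.coeff p.1 ≠ 0 ∧ f.coeff p.2 ≠ 0 ∧ p.1 + p.2 = N := by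
    intro p
    rw [hs, Finset.mem_antidiagonal]
    rfl
  rw [← Finset.sum_filter_add_sum_filter_not s (fun p => p.1 = p.2)]
  have hoff : ∑ p ∈ s with ¬ p.1 = p.2, f.coeff p.1 * f.coeff p.2 = 0 := by
    refine Finset.sum_involution (fun p _ => (p.2, p.1)) ?_ ?_ ?_ ?_
    · intro p _
      show f.coeff p.1 * f.coeff p.2 + f.coeff p.2 * f.coeff p.1 = 0
      rw [mul_comm (f.coeff p.2), hch]
    · intro p hp _ he
      rw [Finset.mem_filter] at hp
      exact hp.2 (congrArg Prod.snd he)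
    · intro p hp
      rw [Finset.mem_filter, hmem] at hp ⊢
      exact ⟨⟨hp.1.2.1, hp.1.1, by rw [← hp.1.2.2]; ring⟩, fun h => hp.2 h.symm⟩
    · intro p _
      rfl
  rw [hoff, add_zero]
  split_ifs with hd
  · obtain ⟨m, rfl⟩ := hd
    rw [Int.mul_ediv_cancel_left m (by norm_num : (2:ℤ) ≠ 0)]
    rw [Finset.sum_eq_single (m, m)]
    · exact hsq _
    · intro p hp hne
      rw [Finset.mem_filter, hmem] at hp
      exfalso
      apply hne
      apply Prod.ext
      · show p.1 = m
        have h1 := hp.1.2.2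
        have h2 := hp.2
        omega
      · show p.2 = m
        have h1 := hp.1.2.2
        have h2 := hp.2
        omega
    · intro hm
      by_contra hne
      apply hm
      rw [Finset.mem_filter, hmem]
      have h1 : f.coeff m ≠ 0 := fun h0 => hne (by
        show f.coeff m * f.coeff m = 0
        rw [h0, zero_mul])
      exact ⟨⟨h1, h1, by show m + m = 2 * m; ring⟩, rfl⟩
  · apply Finset.sum_eq_zero
    intro p hp
    rw [Finset.mem_filter, hmem] at hp
    exfalso
    apply hd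
    exact ⟨p.1, by
      have h1 := hp.1.2.2
      have h2 := hp.2
      omega⟩

theorem FRO : FRO_stmt := by
  intro a
  induction a with
  | zero =>
    intro f N
    simp
  | succ a ih =>
    intro f N
    have h1 : f ^ (2 ^ (a + 1)) = f ^ (2 ^ a) * f ^ (2 ^ a) := by
      rw [pow_succ, pow_mul, pow_two]
    rw [h1, FRO_sq, ih]
    by_cases hd : (2 : ℤ) ∣ N
    · obtain ⟨m, rfl⟩ := hd
      rw [if_pos (Dvd.intro m rfl), Int.mul_ediv_cancel_left m (by norm_num : (2:ℤ) ≠ 0)]
      have e1 : ((2 : ℤ) ^ (a + 1) ∣ 2 * m) ↔ ((2 : ℤ) ^ a ∣ m) := by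
        rw [pow_succ, mul_comm]
        exact mul_dvd_mul_iff_left (by norm_num)
      have e2 : 2 * m / (2 : ℤ) ^ (a + 1) = m / 2 ^ a := by
        rw [pow_succ, mul_comm ((2:ℤ) ^ a) 2]
        exact Int.mul_ediv_mul_of_pos _ _ (by norm_num)
      simp only [e1, e2]
    · rw [if_neg hd, if_neg]
      intro h
      exact hd (Dvd.dvd.trans ⟨2 ^ a, by rw [pow_succ]; ring⟩ h)

end Pool.Agent.EP
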